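import Mathlib
import Pool.Agent.H345R2.Chi

set_option autoImplicit false

/-! Derivative of the factor, partial summation. -/

namespace Pool.Agent.R747.SH

open Complex Filter Topology MeasureTheory Set

noncomputable section

/-- the logarithmic derivative on the line -/
def LL (t g : ℝ) : ℂ := H345.Chi.L2 (1 / 2 + ((t + g : ℝ) : ℂ) * I)

/-- the factor of the functional equation on the line -/
def aa (t g : ℝ) : ℂ := H345.XX (1 / 2 + ((t + g : ℝ) : ℂ) * I)

lemma aa_norm (t g : ℝ) : ‖aa t g‖ = 1 := H345.norm_XX_half (t + g)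

lemma aa_ne (t g : ℝ) : aa t g ≠ 0 := by
  intro h
  have := aa_norm t g
  rw [h] at this
  simp at this

lemma aa_hasDeriv {t g : ℝ} (h : 1 ≤ t + g) :
    HasDerivAt (fun t : ℝ => aa t g) (aa t g * (I * LL t g)) t := by
  have h1 := H345.Chi.hasDerivAt_XX (s := 1 / 2 + ((t + g : ℝ) : ℂ) * I) (by simp) (by simpa using h)
  have h2 : HasDerivAt (fun x : ℝ => (1 / 2 + ((x + g : ℝ) : ℂ) * I)) I t := by
    have h3 : HasDerivAt (fun x : ℝ => ((x + g : ℝ) : ℂ)) 1 t := by
      have := ((hasDerivAt_id t).add_const g).ofReal_comp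
      simpa using this
    simpa using (h3.mul_const I).const_add (1 / 2 : ℂ)
  have h4 := h1.comp t h2
  refine HasDerivAt.congr_deriv h4 ?_
  unfold aa LL
  ring

lemma r_hasDeriv {t g1 g2 : ℝ} (h1 : 1 ≤ t + g1) (h2 : 1 ≤ t + g2) :
    HasDerivAt (fun t : ℝ => (aa t g1)⁻¹ * aa t g2)
      ((aa t g1)⁻¹ * aa t g2 * (I * (LL t g2 - LL t g1))) t := by
  have d1 : HasDerivAt (fun t : ℝ => (aa t g1)⁻¹) (-(aa t g1 * (I * LL t g1)) / (aa t g1) ^ 2) t :=
    (aa_hasDeriv h1).fun_inv (aa_ne t g1)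
  have d2 := aa_hasDeriv h2
  refine HasDerivAt.congr_deriv (d1.fun_mul d2) ?_
  have := aa_ne t g1
  field_simp
  ring

lemma LL_diff {B t g1 g2 : ℝ} (h1 : |g1| ≤ B) (h2 : |g2| ≤ B) (ht : 2 * B + 24 ≤ t) :
    ‖LL t g2 - LL t g1‖ ≤ (56 + 4 * B) / t := by
  have hB : 0 ≤ B := (abs_nonneg _).trans h1
  have ht0 : 0 < t := by linarith
  have key : ∀ g : ℝ, |g| ≤ B → ‖LL t g - (Real.log (t / (2 * Real.pi)) : ℂ)‖ ≤ (28 + 2 * B) / t := by
    intro g hg
    have hg1 := (abs_le.1 hg).1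
    have hg2 : |g| ≤ t / 2 := by linarith
    have hpos : 0 < t + g := by linarith
    have him : (1 / 2 + ((t + g : ℝ) : ℂ) * I).im = t + g := by simp
    have hre : (1 / 2 + ((t + g : ℝ) : ℂ) * I).re = 1 / 2 := by simp
    have h1 := H345.Chi.L2_close (s := 1 / 2 + ((t + g : ℝ) : ℂ) * I) (by rw [hre]; norm_num)
      (by rw [hre]; norm_num) (by rw [him]; linarith)
    rw [him] at h1
    have h2 : |Real.log ((t + g) / (2 * Real.pi)) - Real.log (t / (2 * Real.pi))| ≤ 2 * |g| / t := by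
      rw [Real.log_div hpos.ne' (by positivity), Real.log_div ht0.ne' (by positivity)]
      have := H345.Chi.abs_log_ratio ht0 hg2
      convert this using 2
      ring
    calc ‖LL t g - (Real.log (t / (2 * Real.pi)) : ℂ)‖
        = ‖(LL t g - (Real.log ((t + g) / (2 * Real.pi)) : ℂ)) +
            ((Real.log ((t + g) / (2 * Real.pi)) - Real.log (t / (2 * Real.pi)) : ℝ) : ℂ)‖ := by
          congr 1; push_cast; ring
      _ ≤ 14 / (t + g) + 2 * |g| / t := by
          refine (norm_add_le _ _).trans (add_le_add h1 ?_)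
          rw [Complex.norm_real]
          exact h2
      _ ≤ 28 / t + 2 * B / t := by
          apply add_le_add
          · rw [div_le_div_iff₀ hpos ht0]
            linarith
          · gcongr
      _ = (28 + 2 * B) / t := by ring
  have e : LL t g2 - LL t g1 = (LL t g2 - (Real.log (t / (2 * Real.pi)) : ℂ)) -
      (LL t g1 - (Real.log (t / (2 * Real.pi)) : ℂ)) := by ring
  rw [e]
  calc _ ≤ (28 + 2 * B) / t + (28 + 2 * B) / t :=
        (norm_sub_le _ _).trans (add_le_add (key g2 h2) (key g1 h1))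
    _ = _ := by ring

/-- the product of quotients -/
lemma prod_hasDeriv {k : ℕ} (g1 g2 : Fin k → ℝ) : ∃ K T0 : ℝ, 0 ≤ K ∧ 1 ≤ T0 ∧ ∀ t, T0 ≤ t →
    ∃ g' : ℂ, HasDerivAt (fun t : ℝ => ∏ j, ((aa t (g1 j))⁻¹ * aa t (g2 j))) g' t ∧ ‖g'‖ ≤ K / t := by
  set B : ℝ := (∑ j, |g1 j|) + ∑ j, |g2 j| with hB
  have hB1 : ∀ j, |g1 j| ≤ B := fun j => by
    have h1 := Finset.single_le_sum (f := fun j => |g1 j|) (fun i _ => abs_nonneg _) (Finset.mem_univ j)
    have h2 : 0 ≤ ∑ j, |g2 j| := Finset.sum_nonneg fun i _ => abs_nonneg _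
    linarith
  have hB2 : ∀ j, |g2 j| ≤ B := fun j => by
    have h1 := Finset.single_le_sum (f := fun j => |g2 j|) (fun i _ => abs_nonneg _) (Finset.mem_univ j)
    have h2 : 0 ≤ ∑ j, |g1 j| := Finset.sum_nonneg fun i _ => abs_nonneg _
    linarith
  have hB0 : 0 ≤ B := by positivity
  refine ⟨k * (56 + 4 * B), 2 * B + 24, by positivity, by linarith, fun t ht => ?_⟩
  have ht0 : 0 < t := by linarith
  have hg : ∀ g : ℝ, |g| ≤ B → 1 ≤ t + g := fun g hg => by
    have := (abs_le.1 hg).1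
    linarith
  have hd := HasDerivAt.fun_finsetProd (u := (Finset.univ : Finset (Fin k)))
    (f := fun j (t : ℝ) => ((aa t (g1 j))⁻¹ * aa t (g2 j)))
    (f' := fun j => ((aa t (g1 j))⁻¹ * aa t (g2 j) * (I * (LL t (g2 j) - LL t (g1 j)))))
    (x := t) (fun j _ => r_hasDeriv (hg _ (hB1 j)) (hg _ (hB2 j)))
  refine ⟨_, hd, ?_⟩
  have hr : ∀ j, ‖(aa t (g1 j))⁻¹ * aa t (g2 j)‖ = 1 := fun j => by
    rw [norm_mul, norm_inv, aa_norm, aa_norm]; norm_num
  refine (norm_sum_le _ _).trans ?_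
  calc _ ≤ ∑ _j : Fin k, (56 + 4 * B) / t := by
        refine Finset.sum_le_sum fun j _ => ?_
        rw [smul_eq_mul, norm_mul, norm_prod, Finset.prod_eq_one (fun i _ => hr i), one_mul, norm_mul,
          hr, one_mul, norm_mul, norm_I, one_mul]
        exact LL_diff (hB1 j) (hB2 j) ht
    _ = k * (56 + 4 * B) / t := by
        rw [Finset.sum_const, Finset.card_univ, Fintype.card_fin, nsmul_eq_mul]; ring

/-- partial summation -/
theorem parts {g D' D : ℝ → ℂ} (hD' : Continuous D') (hD : Continuous D) (h : ∀ t, D t = g t * D' t)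
    (hg : ∀ t, ‖g t‖ = 1) {K T0 : ℝ} (hK : 0 ≤ K) (hT0 : 1 ≤ T0)
    (hd : ∀ t, T0 ≤ t → ∃ g' : ℂ, HasDerivAt g g' t ∧ ‖g'‖ ≤ K / t) {b C : ℝ} (hb : 0 < b)
    (hC : ∀ T, 1 ≤ T → ‖∫ t in (0:ℝ)..T, D' t‖ ≤ C * T ^ b) :
    ∃ C2 : ℝ, ∀ T, 1 ≤ T → ‖∫ t in (0:ℝ)..T, D t‖ ≤ C2 * T ^ b := by
  have hC0 : 0 ≤ C := by
    have := hC 1 le_rfl
    rw [Real.one_rpow, mul_one] at this
    exact (norm_nonneg _).trans this
  set M0 : ℝ := ∫ t in (0:ℝ)..T0, ‖D t‖ with hM0
  have hM : ∀ T, 1 ≤ T → T ≤ T0 → ‖∫ t in (0:ℝ)..T, D t‖ ≤ M0 := by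
    intro T h1 h2
    refine (intervalIntegral.norm_integral_le_integral_norm (by linarith)).trans ?_
    refine intervalIntegral.integral_mono_interval le_rfl (by linarith) h2 ?_
      (hD.norm.intervalIntegrable _ _)
    exact Eventually.of_forall fun u => norm_nonneg _
  have hM00 : 0 ≤ M0 := (norm_nonneg _).trans (hM T0 hT0 le_rfl)
  refine ⟨M0 + 2 * C + K * C / b, fun T hT => ?_⟩
  have hTb : 1 ≤ T ^ b := Real.one_le_rpow hT hb.le
  rcases le_total T T0 with hle | hle
  · refine (hM T hT hle).trans ?_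
    have : 0 ≤ 2 * C + K * C / b := by positivity
    nlinarith
  · have hE : ∀ x, HasDerivAt (fun x => ∫ t in (0:ℝ)..x, D' t) (D' x) x := fun x =>
      intervalIntegral.integral_hasDerivAt_right (hD'.intervalIntegrable _ _)
        (hD'.stronglyMeasurableAtFilter _ _) hD'.continuousAt
    have hgd : ∀ x ∈ uIcc T0 T, HasDerivAt g (deriv g x) x := by
      intro x hx
      rw [uIcc_of_le hle] at hx
      obtain ⟨g', h1, _⟩ := hd x hx.1
      rw [h1.deriv]
      exact h1
    have hgb : ∀ x, T0 ≤ x → ‖deriv g x‖ ≤ K / x := by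
      intro x hx
      obtain ⟨g', h1, h2⟩ := hd x hx
      rw [h1.deriv]
      exact h2
    have hgi : IntervalIntegrable (deriv g) volume T0 T := by
      rw [intervalIntegrable_iff_integrableOn_Ioc_of_le hle]
      refine MeasureTheory.Measure.integrableOn_of_bounded (M := K) (by simp)
        (measurable_deriv g).aestronglyMeasurable ?_
      rw [ae_restrict_iff' measurableSet_Ioc]
      refine Eventually.of_forall fun x hx => (hgb x hx.1.le).trans ?_
      exact div_le_self hK (by linarith [hx.1])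
    have hp := intervalIntegral.integral_mul_deriv_eq_deriv_mul (a := T0) (b := T) (u := g)
      (v := fun x => ∫ t in (0:ℝ)..x, D' t) (u' := deriv g) (v' := D') hgd (fun x _ => hE x) hgi
      (hD'.intervalIntegrable _ _)
    have hsplit : ∫ t in (0:ℝ)..T, D t = (∫ t in (0:ℝ)..T0, D t) + ∫ t in T0..T, g t * D' t := by
      rw [← intervalIntegral.integral_add_adjacent_intervals (b := T0) (hD.intervalIntegrable _ _)
        (hD.intervalIntegrable _ _)]
      congr 1
      exact intervalIntegral.integral_congr fun t _ => h t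
    have hI : ‖∫ x in T0..T, deriv g x * ∫ t in (0:ℝ)..x, D' t‖ ≤ K * C / b * T ^ b := by
      have h1 : ‖∫ x in T0..T, deriv g x * ∫ t in (0:ℝ)..x, D' t‖ ≤
          ∫ x in T0..T, K * C * x ^ (b - 1) := by
        refine intervalIntegral.norm_integral_le_of_norm_le hle ?_ ?_
        · refine Eventually.of_forall fun x hx => ?_
          have hx1 : 1 ≤ x := by linarith [hx.1]
          have hx0 : 0 < x := by linarith
          rw [norm_mul]
          calc ‖deriv g x‖ * ‖∫ t in (0:ℝ)..x, D' t‖ ≤ K / x * (C * x ^ b) :=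
                mul_le_mul (hgb x hx.1.le) (hC x hx1) (norm_nonneg _) (by positivity)
            _ = K * C * x ^ (b - 1) := by
                rw [Real.rpow_sub hx0, Real.rpow_one]; ring
        · exact (intervalIntegral.intervalIntegrable_rpow' (by linarith)).const_mul _
      refine h1.trans ?_
      rw [intervalIntegral.integral_const_mul, integral_rpow (Or.inl (by linarith))]
      have e : b - 1 + 1 = b := by ring
      rw [e]
      have h2 : 0 ≤ T0 ^ b := by positivity
      calc K * C * ((T ^ b - T0 ^ b) / b) ≤ K * C * (T ^ b / b) := by gcongr; linarith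
        _ = K * C / b * T ^ b := by ring
    have h4 : T0 ^ b ≤ T ^ b := Real.rpow_le_rpow (by linarith) hle hb.le
    rw [hsplit, hp]
    calc _ ≤ ‖∫ t in (0:ℝ)..T0, D t‖ + (‖g T * ∫ t in (0:ℝ)..T, D' t‖ + ‖g T0 * ∫ t in (0:ℝ)..T0, D' t‖ +
          ‖∫ x in T0..T, deriv g x * ∫ t in (0:ℝ)..x, D' t‖) :=
          (norm_add_le _ _).trans (add_le_add le_rfl ((norm_sub_le _ _).trans
            (add_le_add (norm_sub_le _ _) le_rfl)))
      _ ≤ M0 + (C * T ^ b + C * T ^ b + K * C / b * T ^ b) := by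
          rw [norm_mul, norm_mul, hg, hg, one_mul, one_mul]
          have h5 := hC T hT
          have h6 := (hC T0 hT0).trans (mul_le_mul_of_nonneg_left h4 hC0)
          have h7 := hM T0 hT0 le_rfl
          linarith
      _ ≤ (M0 + 2 * C + K * C / b) * T ^ b := by nlinarith

end

end Pool.Agent.R747.SH
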