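import Pool.Agent.TH612.GS.Asm2
import Pool.Agent.R747.SH.B

set_option autoImplicit false

/-! The error term of the shifted moments does not depend on the order of the shifts. -/

namespace Pool.Agent.R747.SH

open Complex Filter Topology MeasureTheory Set
open Pool.Agent.TH612.CF

noncomputable section

variable {k : ℕ}

lemma Xt_inv_eq (t g : ℝ) : (Xt t (g : ℂ))⁻¹ = aa t g := by
  rw [Xt_inv (by simp)]
  have e : (1 / 2 - I * t - I * (g : ℂ)) = 1 - (1 / 2 + ((t + g : ℝ) : ℂ) * I) := by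
    push_cast; ring
  rw [e, chi_XX (by simp) (by simp; norm_num)]
  unfold aa
  rfl

lemma Xt_eq (t g : ℝ) : Xt t (g : ℂ) = (aa t g)⁻¹ := by
  rw [← Xt_inv_eq, inv_inv]

lemma fe (t g : ℝ) : riemannZeta (1 / 2 - I * (t + g)) = aa t g * riemannZeta (1 / 2 + I * (t + g)) := by
  have e : (1 / 2 - I * ((t : ℂ) + g)) = 1 - (1 / 2 + ((t + g : ℝ) : ℂ) * I) := by
    push_cast; ring
  have e2 : (1 / 2 + I * ((t : ℂ) + g)) = (1 / 2 + ((t + g : ℝ) : ℂ) * I) := by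
    push_cast; ring
  rw [e, e2]
  have h1 : ∀ n : ℕ, (1 / 2 + ((t + g : ℝ) : ℂ) * I) ≠ -n := by
    intro n h
    have := congrArg Complex.re h
    simp at this
    have h2 : (0:ℝ) ≤ n := Nat.cast_nonneg n
    linarith
  have h2 : (1 / 2 + ((t + g : ℝ) : ℂ) * I) ≠ 1 := by
    intro h
    have := congrArg Complex.re h
    norm_num at this
  exact H345.zeta_fe _ h1 h2

/-- the product over the first block -/
def Pp (t : ℝ) (γ : Fin k ⊕ Fin k → ℝ) : ℂ := ∏ j : Fin k, aa t (γ (Sum.inl j))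

lemma Pp_norm (t : ℝ) (γ : Fin k ⊕ Fin k → ℝ) : ‖Pp t γ‖ = 1 := by
  unfold Pp
  rw [norm_prod]
  exact Finset.prod_eq_one fun j _ => aa_norm _ _

lemma Pp_ne (t : ℝ) (γ : Fin k ⊕ Fin k → ℝ) : Pp t γ ≠ 0 := by
  intro h
  have := Pp_norm t γ
  rw [h] at this
  simp at this

lemma GG_Pp (t : ℝ) (γ : Fin k ⊕ Fin k → ℝ) (π : Equiv.Perm (Fin k ⊕ Fin k)) :
    GG t (fun i => (γ i : ℂ)) π = (Pp t γ)⁻¹ * Pp t (fun i => γ (π i)) := by
  rw [GG_eq t (by intro i; simp)]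
  unfold Pp
  rw [← Finset.prod_inv_distrib]
  congr 1
  · exact Finset.prod_congr rfl fun j _ => Xt_eq _ _
  · exact Finset.prod_congr rfl fun j _ => Xt_inv_eq _ _

lemma Zg_Pp (t : ℝ) (γ : Fin k ⊕ Fin k → ℝ) :
    Zg γ t * Pp t γ = (∏ i, riemannZeta (1 / 2 + I * (t + γ i))) * ∏ i, aa t (γ i) := by
  unfold Zg Pp
  rw [Fintype.prod_sum_type, Fintype.prod_sum_type]
  simp only [fe]
  rw [Finset.prod_mul_distrib, Finset.prod_mul_distrib]
  ring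

lemma Zg_perm (t : ℝ) (γ : Fin k ⊕ Fin k → ℝ) (π : Equiv.Perm (Fin k ⊕ Fin k)) :
    Zg γ t = GG t (fun i => (γ i : ℂ)) π * Zg (fun i => γ (π i)) t := by
  have h1 := Zg_Pp t γ
  have h2 := Zg_Pp t (fun i => γ (π i))
  rw [Equiv.prod_comp π (fun i => riemannZeta (1 / 2 + I * (t + γ i))),
    Equiv.prod_comp π (fun i => aa t (γ i)), ← h1] at h2
  rw [GG_Pp]
  have h3 := Pp_ne t γ
  field_simp
  rw [← h2]
  ring

lemma Qs_perm (t : ℝ) (γ : Fin k ⊕ Fin k → ℝ) (π : Equiv.Perm (Fin k ⊕ Fin k)) :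
    Qs t (fun i => (γ i : ℂ)) = GG t (fun i => (γ i : ℂ)) π * Qs t (fun i => (γ (π i) : ℂ)) := by
  unfold Qs
  rw [Finset.mul_sum, ← Equiv.sum_comp (Equiv.mulLeft π)]
  refine Finset.sum_congr rfl fun ρ _ => ?_
  unfold Rt
  have e1 : GG t (fun i => (γ i : ℂ)) (Equiv.mulLeft π ρ) =
      GG t (fun i => (γ i : ℂ)) π * GG t (fun i => (γ (π i) : ℂ)) ρ := by
    rw [GG_Pp, GG_Pp, GG_Pp t (fun i => γ (π i)) ρ]
    have h3 := Pp_ne t (fun i => γ (π i))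
    have h4 := Pp_ne t γ
    have e2 : (fun i => γ ((Equiv.mulLeft π ρ) i)) = fun i => γ (π (ρ i)) := by
      funext i; rfl
    rw [e2]
    field_simp
  rw [e1, mul_assoc]
  rfl

/-- the integrand of the error term -/
def D (γ : Fin k ⊕ Fin k → ℝ) (t : ℝ) : ℂ :=
  Zg γ t - ((Nat.factorial k : ℂ) ^ 2)⁻¹ * Qs t (fun i => (γ i : ℂ))

lemma D_perm (t : ℝ) (γ : Fin k ⊕ Fin k → ℝ) (π : Equiv.Perm (Fin k ⊕ Fin k)) :
    D γ t = GG t (fun i => (γ i : ℂ)) π * D (fun i => γ (π i)) t := by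
  unfold D
  rw [Zg_perm t γ π, Qs_perm t γ π]
  ring

lemma D_cont (γ : Fin k ⊕ Fin k → ℝ) : Continuous fun t : ℝ => D γ t :=
  (Pool.Agent.TH612.GS.Zg_cont γ).sub (continuous_const.mul (Pool.Agent.TH612.GS.Qs_cont γ))

end

end Pool.Agent.R747.SH
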