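import Pool.Agent.R747.TL.D

set_option autoImplicit false

/-! Cauchy's estimate for a function which is small on a line. -/

namespace Pool.Agent.R747.SH

open Complex Filter Topology MeasureTheory Set
open Pool.Agent.R747.TL (gauss_bound norm_gauss)

theorem der {W : ℂ → ℂ} (hW : ∀ s : ℂ, 0 < s.re → s.re < 1 → DifferentiableAt ℂ W s) {K : ℝ}
    (hK : 0 ≤ K) {N : ℕ} (hg : ∀ s : ℂ, 1 / 4 ≤ s.re → s.re ≤ 3 / 4 → ‖W s‖ ≤ K * (1 + |s.im|) ^ N)
    {C1 a : ℝ} (hC1' : 0 ≤ C1) (ha0 : 0 < a)
    (hl : ∀ t : ℝ, 1 ≤ t → ‖W (1 / 2 + (t : ℂ) * I)‖ ≤ C1 * (1 + |t|) ^ a) {ε : ℝ} (hε : 0 < ε) :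
    ∃ C : ℝ, ∀ T : ℝ, 1 ≤ T → ‖deriv W (1 / 2 + (T : ℂ) * I)‖ ≤ C * (1 + |T|) ^ (a + ε) := by
  obtain ⟨n, hn⟩ := exists_nat_ge (a + N)
  set M : ℝ := n.factorial * Real.exp 2 with hM
  have hM0 : 0 < M := by positivity
  have hNn : N ≤ n := by
    have : (N:ℝ) ≤ n := by linarith
    exact_mod_cast this
  set C3 : ℝ := (C1 + K * 2 ^ N * 2) * M + 1 with hC3
  have hC30 : 0 < C3 := by positivity
  set δ : ℝ := min (ε / (4 * (N + 1))) (1 / 8) with hδ
  have hδ0 : 0 < δ := by positivity
  have hδ1 : δ ≤ 1 / 8 := min_le_right _ _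
  have hδ2 : 4 * δ * N ≤ ε := by
    have h1 : δ ≤ ε / (4 * (N + 1)) := min_le_left _ _
    rw [le_div_iff₀ (by positivity)] at h1
    nlinarith
  refine ⟨Real.exp 1 * C3 / δ, fun T hT => ?_⟩
  have hT1 : 1 ≤ 1 + |T| := by linarith [abs_nonneg T]
  set G : ℂ → ℂ := fun s => W s * cexp ((s - (1 / 2 + (T : ℂ) * I)) ^ 2) with hG
  set A : ℝ := C3 * (1 + |T|) ^ a with hA
  set B : ℝ := C3 * (1 + |T|) ^ (a + N) with hB
  have hA0 : 0 < A := by positivity
  have hB0 : 0 < B := by positivity
  have hy1 : ∀ t : ℝ, 1 + |t| ≤ (1 + |T|) * (1 + |t - T|) := by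
    intro t
    have := abs_add_le (t - T) T
    rw [sub_add_cancel] at this
    nlinarith [abs_nonneg T, abs_nonneg (t - T)]
  have hpow : ∀ (b y : ℝ), b ≤ n → (1 + |y|) ^ b * Real.exp (-(y ^ 2)) ≤ M := by
    intro b y hb
    refine le_trans ?_ (gauss_bound n y)
    gcongr
    rw [← Real.rpow_natCast]
    exact Real.rpow_le_rpow_of_exponent_le (by linarith [abs_nonneg y]) hb
  have hdiff : ∀ s : ℂ, 0 < s.re → s.re < 1 → DifferentiableAt ℂ G s := by
    intro s hs0 hs
    exact (hW s hs0 hs).mul (by fun_prop)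
  have hNM : ∀ y : ℝ, (1 + |y|) ^ N * Real.exp (-(y ^ 2)) ≤ M := by
    intro y
    have := hpow N y (by linarith)
    rwa [Real.rpow_natCast] at this
  have hexp : ∀ s : ℂ, 1 / 4 ≤ s.re → s.re ≤ 3 / 4 →
      Real.exp ((s.re - 1 / 2) ^ 2 - (s.im - T) ^ 2) ≤ 2 * Real.exp (-((s.im - T) ^ 2)) := by
    intro s h1 h2
    rw [sub_eq_add_neg, Real.exp_add]
    gcongr
    have h5 : (s.re - 1 / 2) ^ 2 ≤ 1 / 2 := by nlinarith
    have h6 : Real.exp (1 / 2) ≤ 2 := by
      have h7 : Real.exp (1 / 2) ^ 2 = Real.exp 1 := by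
        rw [← Real.exp_nat_mul]; norm_num
      have h8 := Real.exp_one_lt_d9
      nlinarith [Real.exp_pos (1 / 2)]
    exact (Real.exp_le_exp.2 h5).trans h6
  -- bound in the whole strip
  have hbd : ∀ s : ℂ, 1 / 4 ≤ s.re → s.re ≤ 3 / 4 → ‖G s‖ ≤ B := by
    intro s h1 h2
    simp only [hG]
    rw [norm_mul, norm_gauss]
    have h3 := hg s h1 h2
    have h4 := hexp s h1 h2
    have h5 := hNM (s.im - T)
    have h6 : (1 + |T|) ^ N ≤ (1 + |T|) ^ (a + N) := by
      rw [← Real.rpow_natCast]
      exact Real.rpow_le_rpow_of_exponent_le hT1 (by linarith)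
    have h10 : (1:ℝ) ≤ 2 ^ N := one_le_pow₀ (by norm_num)
    calc ‖W s‖ * Real.exp ((s.re - 1 / 2) ^ 2 - (s.im - T) ^ 2)
        ≤ (K * ((1 + |T|) * (1 + |s.im - T|)) ^ N) * (2 * Real.exp (-((s.im - T) ^ 2))) := by
          apply mul_le_mul _ h4 (Real.exp_pos _).le (by positivity)
          refine h3.trans ?_
          gcongr
          exact hy1 _
      _ = K * 2 * (1 + |T|) ^ N * ((1 + |s.im - T|) ^ N * Real.exp (-((s.im - T) ^ 2))) := by
          rw [mul_pow]; ring
      _ ≤ K * 2 * (1 + |T|) ^ (a + N) * M := by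
          apply mul_le_mul (mul_le_mul_of_nonneg_left h6 (by linarith)) h5
            (mul_nonneg (pow_nonneg (by linarith [abs_nonneg (s.im - T)]) N) (Real.exp_pos _).le)
            (mul_nonneg (by linarith) (Real.rpow_nonneg (by linarith) _))
      _ ≤ C3 * (1 + |T|) ^ (a + N) := by
          have h7 : K * 2 * M ≤ C3 := by
            rw [hC3]
            have h8 : K * 2 * M ≤ K * 2 ^ N * 2 * M := by
              have : K * 2 ≤ K * 2 ^ N * 2 := by nlinarith
              gcongr
            have h9 : 0 ≤ C1 * M := by positivity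
            nlinarith
          have h9 : 0 ≤ (1 + |T|) ^ (a + N) := by positivity
          nlinarith
  -- bound on the line
  have hline : ∀ s : ℂ, s.re = 1 / 2 → ‖G s‖ ≤ A := by
    intro s hs
    have e : s = 1 / 2 + (s.im : ℂ) * I := by
      apply Complex.ext <;> simp [hs]
    simp only [hG]
    rw [norm_mul, norm_gauss, hs]
    have e2 : ((1:ℝ) / 2 - 1 / 2) ^ 2 - (s.im - T) ^ 2 = -((s.im - T) ^ 2) := by ring
    rw [e2]
    have h9 : 1 ≤ (1 + |T|) ^ a := Real.one_le_rpow hT1 ha0.le
    rcases le_total 1 s.im with him | him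
    · have h1 : ‖W s‖ ≤ C1 * (1 + |s.im|) ^ a := by
        rw [e]
        simpa using hl s.im him
      have h5 := hpow a (s.im - T) (by linarith [(Nat.cast_nonneg N : (0:ℝ) ≤ N)])
      have h6 : (1 + |s.im|) ^ a ≤ (1 + |T|) ^ a * (1 + |s.im - T|) ^ a := by
        rw [← Real.mul_rpow (by positivity) (by positivity)]
        exact Real.rpow_le_rpow (by positivity) (hy1 _) ha0.le
      calc ‖W s‖ * Real.exp (-((s.im - T) ^ 2))
          ≤ (C1 * ((1 + |T|) ^ a * (1 + |s.im - T|) ^ a)) * Real.exp (-((s.im - T) ^ 2)) := by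
            gcongr
            exact h1.trans (by gcongr)
        _ = C1 * (1 + |T|) ^ a * ((1 + |s.im - T|) ^ a * Real.exp (-((s.im - T) ^ 2))) := by ring
        _ ≤ C1 * (1 + |T|) ^ a * M := by gcongr
        _ ≤ C3 * (1 + |T|) ^ a := by
            have h7 : C1 * M ≤ C3 := by
              rw [hC3]
              have : 0 ≤ K * 2 ^ N * 2 * M := by positivity
              nlinarith
            nlinarith
    · have h1 := hg s (by rw [hs]; norm_num) (by rw [hs]; norm_num)
      have h2 : 1 + |s.im| ≤ 2 * (1 + |s.im - T|) := by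
        rcases le_total 0 s.im with h | h
        · rw [abs_of_nonneg h]
          linarith [abs_nonneg (s.im - T)]
        · rw [abs_of_nonpos h, abs_of_nonpos (by linarith)]
          linarith
      calc ‖W s‖ * Real.exp (-((s.im - T) ^ 2))
          ≤ (K * (2 * (1 + |s.im - T|)) ^ N) * Real.exp (-((s.im - T) ^ 2)) := by
            gcongr
            exact h1.trans (by gcongr)
        _ = K * 2 ^ N * ((1 + |s.im - T|) ^ N * Real.exp (-((s.im - T) ^ 2))) := by
            rw [mul_pow]; ring
        _ ≤ K * 2 ^ N * M := by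
            have := hNM (s.im - T)
            gcongr
        _ ≤ C3 * (1 + |T|) ^ a := by
            have h7 : K * 2 ^ N * M ≤ C3 := by
              rw [hC3]
              have h11 : 0 ≤ C1 * M := by positivity
              have h12 : 0 ≤ K * 2 ^ N * M := by positivity
              nlinarith
            nlinarith
  -- interpolation
  have hAB : ∀ x : ℝ, 0 ≤ x → x ≤ δ → A ^ (1 - 4 * x) * B ^ (4 * x) ≤ C3 * (1 + |T|) ^ (a + ε) := by
    intro x hx0 hx1
    have e : A ^ (1 - 4 * x) * B ^ (4 * x) = C3 * (1 + |T|) ^ (a + 4 * x * N) := by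
      rw [hA, hB, Real.mul_rpow hC30.le (by positivity), Real.mul_rpow hC30.le (by positivity),
        ← Real.rpow_mul (by positivity), ← Real.rpow_mul (by positivity)]
      have e1 : C3 ^ (1 - 4 * x) * C3 ^ (4 * x) = C3 := by
        rw [← Real.rpow_add hC30]; simp
      have e2 : (1 + |T|) ^ (a * (1 - 4 * x)) * (1 + |T|) ^ ((a + N) * (4 * x)) =
          (1 + |T|) ^ (a + 4 * x * N) := by
        rw [← Real.rpow_add (by linarith)]; congr 1; ring
      calc _ = (C3 ^ (1 - 4 * x) * C3 ^ (4 * x)) *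
            ((1 + |T|) ^ (a * (1 - 4 * x)) * (1 + |T|) ^ ((a + N) * (4 * x))) := by ring
        _ = _ := by rw [e1, e2]
    rw [e]
    apply mul_le_mul_of_nonneg_left _ hC30.le
    apply Real.rpow_le_rpow_of_exponent_le hT1
    have : 4 * x * N ≤ 4 * δ * N := by gcongr
    linarith
  have hnear : ∀ s : ℂ, ‖s - (1 / 2 + (T : ℂ) * I)‖ ≤ δ → ‖G s‖ ≤ C3 * (1 + |T|) ^ (a + ε) := by
    intro s hs
    have h1 : |s.re - 1 / 2| ≤ δ := by
      have := (abs_re_le_norm (s - (1 / 2 + (T : ℂ) * I))).trans hs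
      simpa using this
    have h1' := abs_le.1 h1
    rcases le_total (1 / 2) s.re with hr | hr
    · have h2 := Complex.HadamardThreeLines.norm_le_interp_of_mem_verticalClosedStrip' (f := G)
        (z := s) (a := A) (b := B) (l := 1 / 2) (u := 3 / 4) (by norm_num)
        ⟨hr, by linarith⟩
        (by
          apply DifferentiableOn.diffContOnCl
          intro z hz
          have h3 : closure (Complex.HadamardThreeLines.verticalStrip (1 / 2) (3 / 4)) ⊆
              Complex.HadamardThreeLines.verticalClosedStrip (1 / 2) (3 / 4) := by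
            apply closure_minimal
            · intro w hw; exact ⟨hw.1.le, hw.2.le⟩
            · exact isClosed_Icc.preimage continuous_re
          exact (hdiff z (by linarith [(h3 hz).1]) (by linarith [(h3 hz).2])).differentiableWithinAt)
        (by
          refine ⟨B, ?_⟩
          rintro _ ⟨z, hz, rfl⟩
          exact hbd z (by linarith [hz.1]) hz.2)
        (fun z hz => hline z hz) (fun z hz => hbd z (by rw [show z.re = 3 / 4 from hz]; norm_num)
          (by rw [show z.re = 3 / 4 from hz]))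
      refine h2.trans ?_
      have e : (s.re - 1 / 2) / (3 / 4 - 1 / 2) = 4 * (s.re - 1 / 2) := by ring
      rw [e]
      exact hAB _ (by linarith) h1'.2
    · have h2 := Complex.HadamardThreeLines.norm_le_interp_of_mem_verticalClosedStrip' (f := G)
        (z := s) (a := B) (b := A) (l := 1 / 4) (u := 1 / 2) (by norm_num)
        ⟨by linarith, hr⟩
        (by
          apply DifferentiableOn.diffContOnCl
          intro z hz
          have h3 : closure (Complex.HadamardThreeLines.verticalStrip (1 / 4) (1 / 2)) ⊆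
              Complex.HadamardThreeLines.verticalClosedStrip (1 / 4) (1 / 2) := by
            apply closure_minimal
            · intro w hw; exact ⟨hw.1.le, hw.2.le⟩
            · exact isClosed_Icc.preimage continuous_re
          exact (hdiff z (by linarith [(h3 hz).1]) (by linarith [(h3 hz).2])).differentiableWithinAt)
        (by
          refine ⟨B, ?_⟩
          rintro _ ⟨z, hz, rfl⟩
          exact hbd z hz.1 (by linarith [hz.2]))
        (fun z hz => hbd z (by rw [show z.re = 1 / 4 from hz])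
          (by rw [show z.re = 1 / 4 from hz]; norm_num)) (fun z hz => hline z hz)
      refine h2.trans ?_
      have e : (s.re - 1 / 4) / (1 / 2 - 1 / 4) = 1 - 4 * (1 / 2 - s.re) := by ring
      rw [e, mul_comm, sub_sub_cancel]
      exact hAB _ (by linarith) (by linarith)
  -- Cauchy's estimate
  have h1 := norm_deriv_le_of_forall_mem_sphere_norm_le (f := W) (c := 1 / 2 + (T : ℂ) * I) (R := δ)
    (C := Real.exp 1 * (C3 * (1 + |T|) ^ (a + ε))) hδ0
    (by
      apply DifferentiableOn.diffContOnCl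
      intro z hz
      rw [closure_ball _ hδ0.ne'] at hz
      have h2 := (abs_re_le_norm (z - (1 / 2 + (T : ℂ) * I))).trans (by
        simpa [dist_eq_norm] using hz)
      have h3 : |z.re - 1 / 2| ≤ δ := by simpa using h2
      exact (hW z (by linarith [(abs_le.1 h3).1]) (by linarith [(abs_le.1 h3).2])).differentiableWithinAt)
    (by
      intro z hz
      have hz' : ‖z - (1 / 2 + (T : ℂ) * I)‖ ≤ δ := by
        rw [mem_sphere_iff_norm] at hz; exact hz.le
      have h2 := hnear z hz'
      simp only [hG] at h2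
      rw [norm_mul, norm_gauss] at h2
      have h3 : Real.exp (-1) ≤ Real.exp ((z.re - 1 / 2) ^ 2 - (z.im - T) ^ 2) := by
        apply Real.exp_le_exp.2
        have h4 : |z.im - T| ≤ δ := by
          have := (abs_im_le_norm (z - (1 / 2 + (T : ℂ) * I))).trans hz'
          simpa using this
        have h5 := abs_le.1 h4
        nlinarith [sq_nonneg (z.re - 1 / 2)]
      have h4 : ‖W z‖ * Real.exp (-1) ≤ C3 * (1 + |T|) ^ (a + ε) :=
        (mul_le_mul_of_nonneg_left h3 (norm_nonneg _)).trans h2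
      have h5 : Real.exp 1 * Real.exp (-1) = 1 := by rw [← Real.exp_add]; simp
      calc ‖W z‖ = Real.exp 1 * (‖W z‖ * Real.exp (-1)) := by
            rw [mul_comm (‖W z‖), ← mul_assoc, h5, one_mul]
        _ ≤ _ := by gcongr)
  refine h1.trans (le_of_eq ?_)
  ring

end Pool.Agent.R747.SH
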