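import Pool.Agent.R747.SH.C

set_option autoImplicit false

/-! From the integral to the values. -/

namespace Pool.Agent.R747.SH

open Complex Filter Topology MeasureTheory Set

noncomputable section

/-- the smoothed primitive -/
def W (F : ℂ → ℂ) (s : ℂ) : ℂ := ∫ u in (0:ℝ)..1, ((1 - u : ℝ) : ℂ) * F (s + (u : ℂ) * I)

/-- the open strip -/
def U : Set ℂ := {s : ℂ | 0 < s.re} ∩ {s : ℂ | s.re < 1}

lemma U_open : IsOpen U := (isOpen_lt continuous_const continuous_re).inter
  (isOpen_lt continuous_re continuous_const)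

section

variable {F : ℂ → ℂ} (hF : ∀ s : ℂ, 0 < s.re → s.re < 1 → DifferentiableAt ℂ F s)

include hF

lemma dF_cont : ContinuousOn (deriv F) U := by
  have hd : DifferentiableOn ℂ F U := fun s hs => (hF s hs.1 hs.2).differentiableWithinAt
  exact (hd.deriv U_open).continuousOn

lemma cont_line {a : ℂ} (h0 : 0 < a.re) (h1 : a.re < 1) : Continuous (fun u : ℝ => F (a + (u : ℂ) * I)) := by
  rw [continuous_iff_continuousAt]
  intro u
  have h2 : ContinuousAt F (a + (u : ℂ) * I) := (hF _ (by simpa using h0) (by simpa using h1)).continuousAt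
  exact ContinuousAt.comp (f := fun u : ℝ => a + (u : ℂ) * I) h2 (by fun_prop)

lemma W_hasDerivAt {s : ℂ} (h0 : 0 < s.re) (h1 : s.re < 1) :
    HasDerivAt (W F) (∫ u in (0:ℝ)..1, ((1 - u : ℝ) : ℂ) * deriv F (s + (u : ℂ) * I)) s := by
  obtain ⟨r, hr0, hr1, hr2⟩ : ∃ r : ℝ, 0 < r ∧ 0 < s.re - r ∧ s.re + r < 1 :=
    ⟨min (s.re / 2) ((1 - s.re) / 2), by
      apply lt_min <;> linarith, by linarith [min_le_left (s.re / 2) ((1 - s.re) / 2)],
      by linarith [min_le_right (s.re / 2) ((1 - s.re) / 2)]⟩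
  have hball : ∀ a ∈ Metric.closedBall s r, 0 < a.re ∧ a.re < 1 := by
    intro a ha
    have h2 : |(a - s).re| ≤ r := (abs_re_le_norm _).trans (by simpa [dist_eq_norm] using ha)
    rw [sub_re] at h2
    have := abs_le.1 h2
    constructor <;> linarith [this.1, this.2]
  have hK : IsCompact ((fun p : ℂ × ℝ => p.1 + (p.2 : ℂ) * I) '' (Metric.closedBall s r ×ˢ uIcc 0 1)) := by
    apply IsCompact.image
    · exact (isCompact_closedBall s r).prod isCompact_uIcc
    · fun_prop
  obtain ⟨M, hM⟩ := hK.exists_bound_of_continuousOn (f := deriv F) (by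
    apply (dF_cont hF).mono
    rintro z ⟨⟨a, u⟩, ⟨ha, _⟩, rfl⟩
    have h2 := hball a ha
    exact ⟨by simpa using h2.1, by simpa using h2.2⟩)
  have hcont' : Continuous (fun u : ℝ => deriv F (s + (u : ℂ) * I)) := by
    rw [continuous_iff_continuousAt]
    intro u
    have h1 : ContinuousAt (deriv F) (s + (u : ℂ) * I) :=
      (dF_cont hF).continuousAt (U_open.mem_nhds ⟨by simpa using h0, by simpa using h1⟩)
    exact ContinuousAt.comp (f := fun u : ℝ => s + (u : ℂ) * I) h1 (by fun_prop)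
  have hw : Continuous (fun u : ℝ => ((1 - u : ℝ) : ℂ)) := by fun_prop
  have key := intervalIntegral.hasDerivAt_integral_of_dominated_loc_of_deriv_le
    (F := fun (a : ℂ) (u : ℝ) => ((1 - u : ℝ) : ℂ) * F (a + (u : ℂ) * I))
    (F' := fun (a : ℂ) (u : ℝ) => ((1 - u : ℝ) : ℂ) * deriv F (a + (u : ℂ) * I))
    (x₀ := s) (a := 0) (b := 1) (μ := MeasureTheory.volume) (bound := fun _ => M)
    (s := Metric.ball s r) (Metric.ball_mem_nhds s hr0)
    (by
      filter_upwards [Metric.ball_mem_nhds s hr0] with a ha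
      have h2 := hball a (Metric.ball_subset_closedBall ha)
      exact (hw.mul (cont_line hF h2.1 h2.2)).aestronglyMeasurable)
    ((hw.mul (cont_line hF h0 h1)).intervalIntegrable _ _)
    ((hw.mul hcont').aestronglyMeasurable)
    (by
      refine Eventually.of_forall fun u hu a ha => ?_
      have h2 := hM (a + (u : ℂ) * I) ⟨(a, u), ⟨Metric.ball_subset_closedBall ha, uIoc_subset_uIcc hu⟩, rfl⟩
      rw [uIoc_of_le zero_le_one] at hu
      rw [norm_mul, Complex.norm_real, Real.norm_eq_abs, abs_of_nonneg (by linarith [hu.2])]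
      have h3 := norm_nonneg (deriv F (a + (u : ℂ) * I))
      nlinarith [hu.1])
    (intervalIntegrable_const)
    (by
      refine Eventually.of_forall fun u hu a ha => ?_
      have h2 := hball a (Metric.ball_subset_closedBall ha)
      have h3 := (hF (a + (u : ℂ) * I) (by simpa using h2.1) (by simpa using h2.2)).hasDerivAt
      exact (h3.comp_add_const a ((u : ℂ) * I)).const_mul _)
  exact key.2

omit hF in
lemma W_growth {K : ℝ} (hK : 0 ≤ K) {N : ℕ}
    (hg : ∀ s : ℂ, 1 / 4 ≤ s.re → s.re ≤ 3 / 4 → ‖F s‖ ≤ K * (1 + |s.im|) ^ N) {s : ℂ}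
    (h1 : 1 / 4 ≤ s.re) (h2 : s.re ≤ 3 / 4) : ‖W F s‖ ≤ K * 2 ^ N * (1 + |s.im|) ^ N := by
  unfold W
  have h3 := intervalIntegral.norm_integral_le_of_norm_le_const (a := 0) (b := 1)
    (f := fun u : ℝ => ((1 - u : ℝ) : ℂ) * F (s + (u : ℂ) * I)) (C := K * 2 ^ N * (1 + |s.im|) ^ N) (by
      intro u hu
      rw [uIoc_of_le zero_le_one] at hu
      have h4 := hg (s + (u : ℂ) * I) (by simpa using h1) (by simpa using h2)
      have e : (s + (u : ℂ) * I).im = s.im + u := by simp
      rw [e] at h4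
      rw [norm_mul, Complex.norm_real, Real.norm_eq_abs, abs_of_nonneg (by linarith [hu.2])]
      have h5 : 1 + |s.im + u| ≤ 2 * (1 + |s.im|) := by
        have h6 := abs_add_le s.im u
        rw [abs_of_pos hu.1] at h6
        linarith [hu.2, abs_nonneg s.im]
      calc (1 - u) * ‖F (s + (u : ℂ) * I)‖ ≤ 1 * ‖F (s + (u : ℂ) * I)‖ := by
            apply mul_le_mul_of_nonneg_right (by linarith [hu.1]) (norm_nonneg _)
        _ ≤ K * (2 * (1 + |s.im|)) ^ N := by
            rw [one_mul]
            refine h4.trans ?_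
            apply mul_le_mul_of_nonneg_left _ hK
            exact pow_le_pow_left₀ (by linarith [abs_nonneg (s.im + u)]) h5 N
        _ = _ := by rw [mul_pow]; ring)
  simpa using h3

/-- from the integral to the values -/
theorem values {K : ℝ} (hK : 0 ≤ K) {N : ℕ}
    (hg : ∀ s : ℂ, 1 / 4 ≤ s.re → s.re ≤ 3 / 4 → ‖F s‖ ≤ K * (1 + |s.im|) ^ N)
    {f : ℝ → ℂ} (hf : ∀ t : ℝ, F (1 / 2 + (t : ℂ) * I) = f t)
    {C1 b : ℝ} (hC1 : 0 ≤ C1) (hb : 0 < b)
    (hl : ∀ t u : ℝ, 1 ≤ t → 0 ≤ u → u ≤ 1 → ‖∫ x in t..(t + u), f x‖ ≤ C1 * (1 + |t|) ^ b)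
    {ε : ℝ} (hε : 0 < ε) :
    ∃ C : ℝ, ∀ T : ℝ, 1 ≤ T → ‖f T‖ ≤ C * (1 + |T|) ^ (b + ε) := by
  have hfc : Continuous f := by
    have h1 : (1 / 2 : ℂ).re = 1 / 2 := by simp
    have := cont_line hF (a := 1 / 2) (by rw [h1]; norm_num) (by rw [h1]; norm_num)
    refine this.congr fun t => hf t
  set P : ℝ → ℂ := fun x => ∫ t in (0:ℝ)..x, f t with hP
  have hPd : ∀ x, HasDerivAt P (f x) x := fun x =>
    intervalIntegral.integral_hasDerivAt_right (hfc.intervalIntegrable _ _)
      (hfc.stronglyMeasurableAtFilter _ _) hfc.continuousAt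
  have hPc : Continuous P := continuous_iff_continuousAt.2 fun x => (hPd x).continuousAt
  have hPs : ∀ t u : ℝ, P (t + u) - P t = ∫ x in t..(t + u), f x := by
    intro t u
    rw [hP]
    exact intervalIntegral.integral_interval_sub_left (hfc.intervalIntegrable _ _)
      (hfc.intervalIntegrable _ _)
  -- the smoothed primitive on the line
  have hWl : ∀ t : ℝ, W F (1 / 2 + (t : ℂ) * I) = ∫ u in (0:ℝ)..1, (P (t + u) - P t) := by
    intro t
    have e : W F (1 / 2 + (t : ℂ) * I) = ∫ u in (0:ℝ)..1, ((1 - u : ℝ) : ℂ) * f (t + u) := by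
      unfold W
      refine intervalIntegral.integral_congr fun u _ => ?_
      have e1 : (1 / 2 + (t : ℂ) * I + (u : ℂ) * I) = 1 / 2 + ((t + u : ℝ) : ℂ) * I := by
        push_cast
        ring
      simp only [e1, hf (t + u)]
    have hp := intervalIntegral.integral_mul_deriv_eq_deriv_mul (a := 0) (b := 1)
      (u := fun u : ℝ => ((1 - u : ℝ) : ℂ)) (v := fun u => P (t + u) - P t) (u' := fun _ => (-1 : ℂ))
      (v' := fun u => f (t + u))
      (fun x _ => by
        have := ((hasDerivAt_id x).const_sub 1).ofReal_comp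
        simpa using this)
      (fun x _ => ((hPd (t + x)).comp_const_add t x).sub_const _)
      (intervalIntegrable_const) ((hfc.comp (by fun_prop)).intervalIntegrable _ _)
    have e3 : ∫ x in (0:ℝ)..1, (-1 : ℂ) * (P (t + x) - P t) = -∫ x in (0:ℝ)..1, (P (t + x) - P t) := by
      rw [intervalIntegral.integral_const_mul]; ring
    rw [e, hp, e3]
    push_cast
    rw [add_zero]
    ring
  have hWd : ∀ t : ℝ, deriv (W F) (1 / 2 + (t : ℂ) * I) * I = P (t + 1) - P t - f t := by
    intro t
    have h1 := W_hasDerivAt hF (s := 1 / 2 + (t : ℂ) * I) (by simp) (by simp; norm_num)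
    have h2 : HasDerivAt (fun x : ℝ => 1 / 2 + (x : ℂ) * I) I t := by
      simpa using ((ofRealCLM.hasDerivAt (x := t)).mul_const I).const_add (1 / 2 : ℂ)
    have h3 := h1.comp t h2
    set R : ℝ → ℂ := fun x => ∫ y in (0:ℝ)..x, P y with hR
    have hRd : ∀ x, HasDerivAt R (P x) x := fun x =>
      intervalIntegral.integral_hasDerivAt_right (hPc.intervalIntegrable _ _)
        (hPc.stronglyMeasurableAtFilter _ _) hPc.continuousAt
    have h4 : HasDerivAt (fun x : ℝ => R (x + 1) - R x - P x) (P (t + 1) - P t - f t) t :=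
      (((hRd (t + 1)).comp_add_const t 1).sub (hRd t)).sub (hPd t)
    have h5 : (W F ∘ fun x : ℝ => 1 / 2 + (x : ℂ) * I) = fun x : ℝ => R (x + 1) - R x - P x := by
      funext x
      simp only [Function.comp]
      have hPx : Continuous fun u : ℝ => P (x + u) := hPc.comp (continuous_const.add continuous_id)
      have h7 : ∫ u in (0:ℝ)..1, (P (x + u) - P x) = (∫ u in (0:ℝ)..1, P (x + u)) - ∫ _u in (0:ℝ)..1, P x :=
        intervalIntegral.integral_sub (hPx.intervalIntegrable _ _) (continuous_const.intervalIntegrable _ _)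
      rw [hWl, h7]
      have h6 : ∫ u in (0:ℝ)..1, P (x + u) = R (x + 1) - R x := by
        rw [intervalIntegral.integral_comp_add_left (fun y => P y) x, hR, add_zero]
        exact (intervalIntegral.integral_interval_sub_left (hPc.intervalIntegrable _ _)
          (hPc.intervalIntegrable _ _)).symm
      rw [h6]
      simp
    rw [h5] at h3
    have h6 := h3.unique h4
    rw [h1.deriv, h6]
  obtain ⟨C, hC⟩ := der (W := W F) (fun s h0 h1 => (W_hasDerivAt hF h0 h1).differentiableAt)
    (K := K * 2 ^ N) (by positivity) (N := N) (fun s h1 h2 => W_growth hK hg h1 h2) hC1 hb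
    (fun t ht => by
      rw [hWl]
      have h3 := intervalIntegral.norm_integral_le_of_norm_le_const (a := 0) (b := 1)
        (f := fun u : ℝ => P (t + u) - P t) (C := C1 * (1 + |t|) ^ b) (by
          intro u hu
          rw [uIoc_of_le zero_le_one] at hu
          rw [hPs]
          exact hl t u ht hu.1.le hu.2)
      simpa using h3) hε
  refine ⟨C + C1, fun T hT => ?_⟩
  have h1 : f T = (P (T + 1) - P T) - deriv (W F) (1 / 2 + (T : ℂ) * I) * I := by
    rw [hWd]; ring
  rw [h1]
  refine (norm_sub_le _ _).trans ?_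
  rw [norm_mul, norm_I, mul_one, hPs]
  have h2 := hl T 1 hT zero_le_one le_rfl
  have h3 := hC T hT
  have h4 : (1 + |T|) ^ b ≤ (1 + |T|) ^ (b + ε) :=
    Real.rpow_le_rpow_of_exponent_le (by linarith [abs_nonneg T]) (by linarith)
  nlinarith

end

end

end Pool.Agent.R747.SH
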