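import Pool.Agent.R747.SH.A
import Pool.Agent.R747.SH.E

set_option autoImplicit false

/-! Rearrangement of the shifts and the pointwise bound. -/

namespace Pool.Agent.R747.SH

open Complex Filter Topology MeasureTheory Set
open Pool.Agent.TH612.CF

noncomputable section

variable {k : ℕ}

lemma GG_prod (t : ℝ) (γ : Fin k ⊕ Fin k → ℝ) (π : Equiv.Perm (Fin k ⊕ Fin k)) :
    GG t (fun i => (γ i : ℂ)) π =
      ∏ j : Fin k, ((aa t (γ (Sum.inl j)))⁻¹ * aa t (γ (π (Sum.inl j)))) := by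
  rw [GG_Pp]
  unfold Pp
  rw [← Finset.prod_inv_distrib, ← Finset.prod_mul_distrib]

lemma GG_norm (t : ℝ) (γ : Fin k ⊕ Fin k → ℝ) (π : Equiv.Perm (Fin k ⊕ Fin k)) :
    ‖GG t (fun i => (γ i : ℂ)) π‖ = 1 := by
  rw [GG_Pp, norm_mul, norm_inv, Pp_norm, Pp_norm]
  norm_num

/-- rearrangement, one exponent -/
theorem rearr (γ : Fin k ⊕ Fin k → ℝ) (π : Equiv.Perm (Fin k ⊕ Fin k)) {b C : ℝ} (hb : 0 < b)
    (hC : ∀ T, 1 ≤ T → ‖∫ t in (0:ℝ)..T, D (fun i => γ (π i)) t‖ ≤ C * T ^ b) :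
    ∃ C2 : ℝ, ∀ T, 1 ≤ T → ‖∫ t in (0:ℝ)..T, D γ t‖ ≤ C2 * T ^ b := by
  obtain ⟨K, T0, hK, hT0, hd⟩ := prod_hasDeriv (fun j : Fin k => γ (Sum.inl j))
    (fun j : Fin k => γ (π (Sum.inl j)))
  refine parts (g := fun t => GG t (fun i => (γ i : ℂ)) π) (D_cont _) (D_cont γ)
    (fun t => D_perm t γ π) (fun t => GG_norm t γ π) hK hT0 (fun t ht => ?_) hb hC
  obtain ⟨g', h1, h2⟩ := hd t ht
  refine ⟨g', ?_, h2⟩
  have e : (fun t => GG t (fun i => (γ i : ℂ)) π) = fun t : ℝ =>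
      ∏ j : Fin k, ((aa t (γ (Sum.inl j)))⁻¹ * aa t (γ (π (Sum.inl j)))) := by
    funext t
    exact GG_prod t γ π
  rw [e]
  exact h1

/-- the analytic function -/
def FF (γ : Fin k ⊕ Fin k → ℝ) (s : ℂ) : ℂ :=
  ∏ j : Fin k, riemannZeta (s + I * γ (Sum.inl j)) * riemannZeta (1 - s - I * γ (Sum.inr j))

lemma FF_diff (γ : Fin k ⊕ Fin k → ℝ) (s : ℂ) (h0 : 0 < s.re) (h1 : s.re < 1) :
    DifferentiableAt ℂ (FF γ) s := by
  unfold FF
  refine DifferentiableAt.fun_finsetProd fun j _ => ?_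
  refine DifferentiableAt.fun_mul ?_ ?_
  · have h2 : s + I * (γ (Sum.inl j) : ℂ) ≠ 1 := by
      intro h
      have := congrArg Complex.re h
      simp at this
      linarith
    exact DifferentiableAt.comp (g := riemannZeta) (f := fun s => s + I * (γ (Sum.inl j) : ℂ)) s
      (differentiableAt_riemannZeta h2) (by fun_prop)
  · have h2 : 1 - s - I * (γ (Sum.inr j) : ℂ) ≠ 1 := by
      intro h
      have := congrArg Complex.re h
      simp at this
      linarith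
    exact DifferentiableAt.comp (g := riemannZeta) (f := fun s => 1 - s - I * (γ (Sum.inr j) : ℂ)) s
      (differentiableAt_riemannZeta h2) (by fun_prop)

lemma FF_growth (γ : Fin k ⊕ Fin k → ℝ) : ∃ K : ℝ, 0 ≤ K ∧ ∀ s : ℂ, 1 / 4 ≤ s.re → s.re ≤ 3 / 4 →
    ‖FF γ s‖ ≤ K * (1 + |s.im|) ^ (2 * k) := by
  set B : ℝ := ∑ i, |γ i| with hB
  have hB0 : 0 ≤ B := Finset.sum_nonneg fun i _ => abs_nonneg _
  have hBi : ∀ i, |γ i| ≤ B := fun i =>
    Finset.single_le_sum (f := fun i => |γ i|) (fun i _ => abs_nonneg _) (Finset.mem_univ i)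
  refine ⟨(9 * (1 + B)) ^ (2 * k), by positivity, fun s h1 h2 => ?_⟩
  have hb : ∀ (z : ℂ) (g : ℝ), |g| ≤ B → 1 / 4 ≤ z.re → z.re ≤ 3 / 4 → |z.im| = |s.im| →
      ∀ y : ℝ, |y| ≤ |z.im| + |g| → 9 * (1 + |y|) ≤ 9 * (1 + B) * (1 + |s.im|) := by
    intro z g hg _ _ hz y hy
    rw [hz] at hy
    nlinarith [abs_nonneg s.im, abs_nonneg g]
  have hone : ∀ w : ℂ, 1 / 4 ≤ w.re → w.re ≤ 3 / 4 → |w.im| ≤ |s.im| + B →
      ‖riemannZeta w‖ ≤ 9 * (1 + B) * (1 + |s.im|) := by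
    intro w hw1 hw2 hw3
    refine (Pool.Agent.H388LH.zeta_growth' hw1 hw2).trans ?_
    nlinarith [abs_nonneg s.im]
  unfold FF
  rw [norm_prod]
  have h3 : ∀ j : Fin k, ‖riemannZeta (s + I * γ (Sum.inl j)) * riemannZeta (1 - s - I * γ (Sum.inr j))‖ ≤
      (9 * (1 + B) * (1 + |s.im|)) ^ 2 := by
    intro j
    rw [norm_mul, sq]
    have a1 := hone (s + I * γ (Sum.inl j)) (by simpa using h1) (by simpa using h2) (by
      have e : (s + I * (γ (Sum.inl j) : ℂ)).im = s.im + γ (Sum.inl j) := by simp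
      rw [e]
      exact (abs_add_le _ _).trans (by linarith [hBi (Sum.inl j)]))
    have a2 := hone (1 - s - I * γ (Sum.inr j)) (by simp; linarith) (by simp; linarith) (by
      have e : (1 - s - I * (γ (Sum.inr j) : ℂ)).im = -(s.im + γ (Sum.inr j)) := by simp; ring
      rw [e, abs_neg]
      exact (abs_add_le _ _).trans (by linarith [hBi (Sum.inr j)]))
    exact mul_le_mul a1 a2 (norm_nonneg _) (by positivity)
  calc _ ≤ ∏ _j : Fin k, (9 * (1 + B) * (1 + |s.im|)) ^ 2 :=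
        Finset.prod_le_prod (fun j _ => norm_nonneg _) fun j _ => h3 j
    _ = (9 * (1 + B)) ^ (2 * k) * (1 + |s.im|) ^ (2 * k) := by
        rw [Finset.prod_const, Finset.card_univ, Fintype.card_fin, ← pow_mul, mul_pow]

lemma FF_line (γ : Fin k ⊕ Fin k → ℝ) (t : ℝ) : FF γ (1 / 2 + (t : ℂ) * I) = Zg γ t := by
  unfold FF Zg
  refine Finset.prod_congr rfl fun j _ => ?_
  congr 2
  · ring
  · ring

lemma Zg_norm (γ : Fin k ⊕ Fin k → ℝ) (t : ℝ) :
    ‖Zg γ t‖ = ∏ i, ‖riemannZeta (1 / 2 + I * (t + γ i))‖ := by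
  have h := congrArg norm (Zg_Pp t γ)
  rw [norm_mul, Pp_norm, mul_one, norm_mul, norm_prod, norm_prod,
    Finset.prod_eq_one (fun i _ => aa_norm t (γ i)), mul_one] at h
  exact h

lemma Qs_bound (γ : Fin k ⊕ Fin k → ℝ) : ∃ M : ℝ, 0 ≤ M ∧ ∀ t : ℝ,
    ‖((Nat.factorial k : ℂ) ^ 2)⁻¹ * Qs t (fun i => (γ i : ℂ))‖ ≤ M := by
  refine ⟨‖((Nat.factorial k : ℂ) ^ 2)⁻¹‖ * ∑ π : Equiv.Perm (Fin k ⊕ Fin k),
    ‖zab (fun j => (γ (π (Sum.inl j)) : ℂ)) (fun j => (γ (π (Sum.inr j)) : ℂ))‖, by positivity,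
    fun t => ?_⟩
  rw [norm_mul]
  apply mul_le_mul_of_nonneg_left _ (norm_nonneg _)
  unfold Qs
  refine (norm_sum_le _ _).trans (Finset.sum_le_sum fun π _ => ?_)
  unfold Rt
  rw [norm_mul, GG_norm, one_mul]

/-- the pointwise bound -/
theorem pointwise (γ : Fin k ⊕ Fin k → ℝ) {b C ε : ℝ} (hb : 0 < b) (hε : 0 < ε)
    (hC : ∀ T, 1 ≤ T → ‖∫ t in (0:ℝ)..T, D γ t‖ ≤ C * T ^ b) :
    ∃ C2 : ℝ, ∀ t : ℝ, 1 ≤ t →
      ∏ i, ‖riemannZeta (1 / 2 + I * (t + γ i))‖ ≤ C2 * t ^ (b + ε) := by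
  have hC0 : 0 ≤ C := by
    have := hC 1 le_rfl
    rw [Real.one_rpow, mul_one] at this
    exact (norm_nonneg _).trans this
  obtain ⟨K, hK, hg⟩ := FF_growth γ
  obtain ⟨M, hM, hQ⟩ := Qs_bound γ
  have hZc := Pool.Agent.TH612.GS.Zg_cont γ
  have hDc := D_cont γ
  have hQc : Continuous fun t : ℝ => ((Nat.factorial k : ℂ) ^ 2)⁻¹ * Qs t (fun i => (γ i : ℂ)) :=
    continuous_const.mul (Pool.Agent.TH612.GS.Qs_cont γ)
  have hl : ∀ t u : ℝ, 1 ≤ t → 0 ≤ u → u ≤ 1 →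
      ‖∫ x in t..(t + u), Zg γ x‖ ≤ (2 * C + M) * (1 + |t|) ^ b := by
    intro t u ht hu0 hu1
    have e : ∫ x in t..(t + u), Zg γ x = (∫ x in t..(t + u), D γ x) +
        ∫ x in t..(t + u), ((Nat.factorial k : ℂ) ^ 2)⁻¹ * Qs x (fun i => (γ i : ℂ)) := by
      rw [← intervalIntegral.integral_add (hDc.intervalIntegrable _ _) (hQc.intervalIntegrable _ _)]
      refine intervalIntegral.integral_congr fun x _ => ?_
      unfold D
      ring
    have e2 : ∫ x in t..(t + u), D γ x = (∫ x in (0:ℝ)..(t + u), D γ x) - ∫ x in (0:ℝ)..t, D γ x :=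
      (intervalIntegral.integral_interval_sub_left (hDc.intervalIntegrable _ _)
        (hDc.intervalIntegrable _ _)).symm
    have h3 := intervalIntegral.norm_integral_le_of_norm_le_const (a := t) (b := t + u)
      (f := fun x : ℝ => ((Nat.factorial k : ℂ) ^ 2)⁻¹ * Qs x (fun i => (γ i : ℂ))) (C := M)
      (fun x _ => hQ x)
    have h4 : |t + u - t| ≤ 1 := by rw [add_sub_cancel_left, abs_of_nonneg hu0]; exact hu1
    have h5 := hC (t + u) (by linarith)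
    have h6 := hC t ht
    have h7 : (t + u) ^ b ≤ (1 + |t|) ^ b :=
      Real.rpow_le_rpow (by linarith) (by rw [abs_of_pos (by linarith)]; linarith) hb.le
    have h8 : t ^ b ≤ (1 + |t|) ^ b :=
      Real.rpow_le_rpow (by linarith) (by rw [abs_of_pos (by linarith)]; linarith) hb.le
    have h9 : 1 ≤ (1 + |t|) ^ b := Real.one_le_rpow (by linarith [abs_nonneg t]) hb.le
    rw [e, e2]
    refine (norm_add_le _ _).trans ?_
    have h10 := norm_sub_le (∫ x in (0:ℝ)..(t + u), D γ x) (∫ x in (0:ℝ)..t, D γ x)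
    have h11 : M * |t + u - t| ≤ M * (1 + |t|) ^ b := by
      apply mul_le_mul_of_nonneg_left _ hM
      linarith
    have h12 := mul_le_mul_of_nonneg_left h7 hC0
    have h13 := mul_le_mul_of_nonneg_left h8 hC0
    linarith
  obtain ⟨C2, hC2⟩ := values (F := FF γ) (fun s h0 h1 => FF_diff γ s h0 h1) hK (N := 2 * k) hg
    (f := fun t => Zg γ t) (fun t => FF_line γ t) (C1 := 2 * C + M) (by linarith) hb hl hε
  have hC20 : 0 ≤ C2 := by
    have h1 := (norm_nonneg _).trans (hC2 1 le_rfl)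
    by_contra h
    push Not at h
    have h2 : 0 < (1 + |(1:ℝ)|) ^ (b + ε) := by positivity
    nlinarith
  refine ⟨C2 * 2 ^ (b + ε), fun t ht => ?_⟩
  rw [← Zg_norm]
  refine (hC2 t ht).trans ?_
  rw [mul_assoc, ← Real.mul_rpow (by norm_num) (by linarith)]
  apply mul_le_mul_of_nonneg_left _ hC20
  apply Real.rpow_le_rpow (by positivity) _ (by linarith)
  rw [abs_of_pos (by linarith)]
  linarith

end

end Pool.Agent.R747.SH
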